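import Pool.Agent.helper34.DH.Main

/-!
# Explicit level for Tate characters: definitions
-/

set_option autoImplicit false

namespace Pool.Agent.helper34.EL

open Finset Pool.Agent.helper34.DH

/-- the sawtooth function on `ℤ/n`: odd, zero at zero -/
noncomputable def saw (n : ℕ) (x : ZMod n) : ℚ := if x = 0 then 0 else (x.val : ℚ) / n - 1 / 2

/-- all Galois conjugates of the family `a` have vanishing sawtooth sum -/
def Rel (n : ℕ) {ι : Type} [Fintype ι] (a : ι → ZMod n) : Prop :=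
  ∀ u : (ZMod n)ˣ, ∑ i, saw n ((u : ZMod n) * a i) = 0

/-- distribution relation at `q` for a function on `ℤ/n` -/
def DistAt {A : Type} [AddCommMonoid A] (n : ℕ) [NeZero n] (q : ℕ) (g : ZMod n → A) : Prop :=
  ∀ x : ZMod n, ∑ y ∈ univ.filter (fun y : ZMod n => (q : ZMod n) * y = q * x), g y = g (q * x)

/-- sum of the conjugates of the sawtooth function, twisted by a Dirichlet character -/
noncomputable def sawχ (n : ℕ) [NeZero n] (χ : DirichletCharacter ℂ n) (x : ZMod n) : ℂ :=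
  ∑ u : (ZMod n)ˣ, (χ (u : ZMod n))⁻¹ * ((saw n ((u : ZMod n) * x) : ℚ) : ℂ)

/-- the universal odd distribution on `ℤ/n`: class of the point `x / n` of `ℚ/ℤ` plus that of
`1 / 2`, modulo standard elements -/
noncomputable def En (n : ℕ) (x : ZMod n) : Qt := F ((x.val : ℚ) / n) + hh

/-- coefficient systems: abelian groups with commuting endomorphisms `φ q` and an involution -/
structure CS (Y : Type) [AddCommGroup Y] where
  φ : ℕ → Y →+ Y
  ι : Y →+ Y
  comm : ∀ a b y, φ a (φ b y) = φ b (φ a y)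
  ιι : ∀ y, ι (ι y) = y
  φι : ∀ a y, φ a (ι y) = ι (φ a y)

/-- distributions on a finite group with coefficients in a coefficient system -/
def IsDist {X Y : Type} [AddCommGroup X] [Fintype X] [DecidableEq X] [AddCommGroup Y]
    (𝒴 : CS Y) (S : Set ℕ) (g : X → Y) : Prop :=
  ∀ q ∈ S, ∀ x, ∑ y ∈ univ.filter (fun y => q • y = q • x), g y = 𝒴.φ q (g (q • x))

/-- invariants and anti-invariants of the involution are norms -/
def PP {Y : Type} [AddCommGroup Y] (𝒴 : CS Y) : Prop :=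
  (∀ y, 𝒴.ι y = y → ∃ z, y = z + 𝒴.ι z) ∧ (∀ y, 𝒴.ι y = -y → ∃ z, y = z - 𝒴.ι z)

/-- distributions on `X` lift along surjections of coefficients -/
def LiftP (X : Type) [AddCommGroup X] [Fintype X] [DecidableEq X] (S : Set ℕ) : Prop :=
  ∀ (Y Z : Type) [AddCommGroup Y] [AddCommGroup Z] (𝒴 : CS Y) (𝒵 : CS Z) (π : Y →+ Z),
    Function.Surjective π → (∀ q y, π (𝒴.φ q y) = 𝒵.φ q (π y)) →
    ∀ g : X → Z, IsDist 𝒵 S g → ∃ f : X → Y, IsDist 𝒴 S f ∧ ∀ x, π (f x) = g x

/-- invariant distributions are norms -/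
def ParP (X : Type) [AddCommGroup X] [Fintype X] [DecidableEq X] (S : Set ℕ) : Prop :=
  ∀ (Y : Type) [AddCommGroup Y] (𝒴 : CS Y), PP 𝒴 → ∀ g : X → Y, IsDist 𝒴 S g →
    (∀ x, 𝒴.ι (g (-x)) = g x) → ∃ z : X → Y, IsDist 𝒴 S z ∧ ∀ x, g x = z x + 𝒴.ι (z (-x))

/-- the element of `(ℤ/N)ˣ` by which `a` acts -/
noncomputable def υ (N a : ℕ) : (ZMod N)ˣ := if h : a.Coprime N then ZMod.unitOfCoprime a h else 1

/-- functions on `(ℤ/N)ˣ` with values in a coefficient system -/
noncomputable def FunCS (N : ℕ) {Y : Type} [AddCommGroup Y] (𝒴 : CS Y) : CS ((ZMod N)ˣ → Y) where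
  φ a :=
    { toFun := fun y b => 𝒴.φ a (y (υ N a * b))
      map_zero' := by funext b; simp
      map_add' := fun x y => by funext b; simp }
  ι :=
    { toFun := fun y b => 𝒴.ι (y (-b))
      map_zero' := by funext b; simp
      map_add' := fun x y => by funext b; simp }
  comm a b y := by
    funext c
    change 𝒴.φ a (𝒴.φ b (y (υ N b * (υ N a * c)))) = 𝒴.φ b (𝒴.φ a (y (υ N a * (υ N b * c))))
    rw [𝒴.comm, mul_left_comm]
  ιι y := by
    funext c
    change 𝒴.ι (𝒴.ι (y (- -c))) = y c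
    rw [𝒴.ιι, neg_neg]
  φι a y := by
    funext c
    change 𝒴.φ a (𝒴.ι (y (-(υ N a * c)))) = 𝒴.ι (𝒴.φ a (y (υ N a * -c)))
    rw [𝒴.φι, mul_neg]

end Pool.Agent.helper34.EL
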